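import Pool.Agent.H12.UCR.Stmts4

/-!
# Board `ucr`, row IRR: `log q / log p` is irrational for multiplicatively independent `p`, `q`
-/

set_option autoImplicit false

namespace Pool.UCR

/-- **IRR**. -/
theorem irr_thm : IRRS := by
  intro p q hp hq hMI
  rintro ⟨r, hr⟩
  have hlp : 0 < Real.log p := Real.log_pos (by exact_mod_cast hp)
  have hlq : 0 < Real.log q := Real.log_pos (by exact_mod_cast hq)
  have hr0 : (0 : ℝ) < (r : ℝ) := by
    rw [hr]
    positivity
  have hr1 : 0 < r := by exact_mod_cast hr0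
  have hnum : 0 < r.num := Rat.num_pos.mpr hr1
  obtain ⟨a, ha⟩ := Int.eq_ofNat_of_zero_le hnum.le
  have hden : (0 : ℝ) < (r.den : ℝ) := by exact_mod_cast r.den_pos
  have h2 : (r : ℝ) = (a : ℝ) / (r.den : ℝ) := by
    rw [Rat.cast_def, ha]
    simp
  have h1 : (a : ℝ) * Real.log p = (r.den : ℝ) * Real.log q := by
    rw [h2] at hr
    field_simp at hr
    linarith
  have h3 : (p : ℝ) ^ a = (q : ℝ) ^ r.den := by
    have hp0 : (0 : ℝ) < p := by positivity
    have hq0 : (0 : ℝ) < q := by positivity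
    apply Real.log_injOn_pos (Set.mem_Ioi.mpr (pow_pos hp0 a)) (Set.mem_Ioi.mpr (pow_pos hq0 r.den))
    rw [Real.log_pow, Real.log_pow]
    exact h1
  exact hMI a r.den (by omega) r.den_pos (by exact_mod_cast h3)

end Pool.UCR
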