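import Pool.Agent.H12.UCR.Stmts2

/-!
# Board `ucr`, row EQG: the set is the same for `q ^ n` and `r p ^ (i n) q ^ (m n)`
-/

set_option autoImplicit false

open MeasureTheory Filter Topology

namespace Pool.UCR

theorem eqg_norm (p : ℕ) (μ : PP p) (j : ℕ) : ‖fc μ j‖ ≤ 1 := by
  unfold fc
  have h := norm_integral_le_of_norm_le_const
    (μ := ((μ.1 : ProbabilityMeasure UnitAddCircle) : Measure UnitAddCircle))
    (f := fun x : UnitAddCircle => fourier (j : ℤ) x) (C := 1)
    (Eventually.of_forall fun x => by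
      rw [fourier_apply]
      exact (Circle.norm_coe _).le)
  simpa using h

theorem eqg_av (hI : INVS) (p q r m k N : ℕ) (i : ℕ → ℕ) (μ : PP p) :
    AvS μ (fun n => r * p ^ (i n) * q ^ (m * n)) k N = Av (q ^ m) (r * k) N (fc μ) := by
  unfold AvS Av
  congr 1
  refine Finset.sum_congr rfl fun n _ => ?_
  have h : k * (r * p ^ (i n) * q ^ (m * n)) = r * k * (q ^ m) ^ n * p ^ (i n) := by
    rw [pow_mul q m n]
    ring
  dsimp only
  rw [h, hI]

/-- **EQG**. -/
theorem eqg_thm (h1 : INVS) (h2 : POWS) (h3 : POCS) (h4 : WYGS) (h5 : RMUS) : EQGS := by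
  intro p q r m hp hq hr hm i μ
  have hqm : 2 ≤ q ^ m := hq.trans (Nat.le_self_pow (by omega) q)
  rw [h4, h4]
  constructor
  · intro h k hk
    have h6 : ∀ k : ℕ, 1 ≤ k → Tendsto (fun N : ℕ => Av (q ^ m) (r * k) N (fc μ)) atTop (𝓝 0) := by
      intro k' hk'
      simpa only [eqg_av h1] using h k' hk'
    have h7 := h5 p (q ^ m) r μ hqm hr h6
    exact h3 q m (fc μ) (eqg_norm p μ) hq hm h7 k hk
  · intro h k hk
    simp only [eqg_av h1]
    exact h2 p q m μ hq hm h (r * k) (Nat.mul_pos hr hk)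

end Pool.UCR
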