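import Pool.Agent.H12.UCR.Stmts

/-!
# Board `ucr`, row EQV: the set is the same for `q` and `p ^ i q ^ m`
-/

set_option autoImplicit false

open MeasureTheory Filter Topology

namespace Pool.UCR

theorem eqv_norm (p : ℕ) (μ : PP p) (j : ℕ) : ‖fc μ j‖ ≤ 1 := by
  unfold fc
  have h := norm_integral_le_of_norm_le_const
    (μ := ((μ.1 : ProbabilityMeasure UnitAddCircle) : Measure UnitAddCircle))
    (f := fun x : UnitAddCircle => fourier (j : ℤ) x) (C := 1)
    (Eventually.of_forall fun x => by
      rw [fourier_apply]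
      exact (Circle.norm_coe _).le)
  simpa using h

theorem eqv_av (hI : INVS) (p q i m k N : ℕ) (μ : PP p) :
    Av (p ^ i * q ^ m) k N (fc μ) = Av (q ^ m) k N (fc μ) := by
  unfold Av
  congr 1
  refine Finset.sum_congr rfl fun n _ => ?_
  have h : k * (p ^ i * q ^ m) ^ n = k * (q ^ m) ^ n * p ^ (i * n) := by
    rw [mul_pow, pow_mul p i n]
    ring
  rw [h, hI]

/-- **EQV**. -/
theorem eqv_thm (h1 : WYCS) (h2 : WYLS) (h3 : INVS) (h4 : POWS) (h5 : POCS) : EQVS := by
  intro p q i m hp hq hm μ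
  constructor
  · intro h
    refine h1 p _ μ fun k hk => ?_
    simp only [eqv_av h3]
    exact h4 p q m μ hq hm (h2 p q μ h) k hk
  · intro h
    refine h1 p q μ fun k hk => ?_
    refine h5 q m (fc μ) (eqv_norm p μ) hq hm (fun k' hk' => ?_) k hk
    have h6 := h2 p _ μ h k' hk'
    simpa only [eqv_av h3] using h6

end Pool.UCR
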